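import Pool.Agent.Helper56.SKF.Defs

/-!
# Traces of graded modules are determined on the even part
-/

namespace Pool.Agent.Helper84.SKF

open Module Pool.Agent.Helper56.SKW Pool.Agent.Helper56.SKW.PBW Pool.Agent.Helper56.SKU
  Pool.Agent.Helper56.SKR Pool.Agent.Helper56.SKF

section abs

variable {R A F Z : Type*} [CommRing R] [Ring A] [Algebra R A] [Field F]

/-- The sign of a pair of letters. -/
def sg2 (a b : Bool) : ℤ := if a && b then -1 else 1

/-- The parity of a word. -/
def parL (par : Z → Bool) (l : List Z) : Bool := l.foldr (fun z b => xor (par z) b) false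

omit [CommRing R] [Algebra R A] in
theorem parL_nil (par : Z → Bool) : parL par [] = false := rfl

theorem parL_cons (par : Z → Bool) (z : Z) (l : List Z) :
    parL par (z :: l) = xor (par z) (parL par l) := rfl

theorem parL_append (par : Z → Bool) (l l' : List Z) :
    parL par (l ++ l') = xor (parL par l) (parL par l') := by
  induction l with
  | nil => simp [parL]
  | cons z l ih => rw [List.cons_append, parL_cons, parL_cons, ih, Bool.xor_assoc]

theorem sig_word {σ : A} {h : Z → A} {par : Z → Bool}
    (hs : ∀ z, σ * h z = (sg2 true (par z)) • (h z * σ)) (l : List Z) :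
    σ * pwf h l = (sg2 true (parL par l)) • (pwf h l * σ) := by
  induction l with
  | nil => simp [pwf_nil, parL_nil, sg2]
  | cons z l ih =>
    rw [pwf_cons, ← mul_assoc, hs, smul_mul_assoc, mul_assoc, ih, mul_smul_comm, smul_smul,
      parL_cons, mul_assoc]
    congr 1
    cases par z <;> cases parL par l <;> simp [sg2]

theorem swap_word {h : Z → A} {par : Z → Bool}
    (hc : ∀ x y, h x * h y - (sg2 (par x) (par y)) • (h y * h x) ∈ FF R h 2) (x : Z)
    (l : List Z) :
    h x * pwf h l - (sg2 (par x) (parL par l)) • (pwf h l * h x) ∈ FF R h (l.length + 1) := by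
  induction l with
  | nil =>
    have : sg2 (par x) (parL par []) = 1 := by simp [parL_nil, sg2]
    rw [this, one_smul, pwf_nil, mul_one, one_mul, sub_self]
    exact Submodule.zero_mem _
  | cons z l ih =>
    have e1 : h x * pwf h (z :: l) - (sg2 (par x) (parL par (z :: l))) • (pwf h (z :: l) * h x) =
        (h x * h z - (sg2 (par x) (par z)) • (h z * h x)) * pwf h l +
        (sg2 (par x) (par z)) • (h z * (h x * pwf h l -
          (sg2 (par x) (parL par l)) • (pwf h l * h x))) := by
      have e2 : sg2 (par x) (parL par (z :: l)) =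
          sg2 (par x) (par z) * sg2 (par x) (parL par l) := by
        rw [parL_cons]
        cases par x <;> cases par z <;> cases parL par l <;> simp [sg2]
      rw [e2, pwf_cons, sub_mul, mul_sub, smul_sub, mul_smul_comm, smul_smul, smul_mul_assoc]
      simp only [mul_assoc]
      abel
    rw [e1]
    refine Submodule.add_mem _ ?_ ?_
    · refine FF_mono R h ?_ (FF_mul' R h (hc x z) (FF_mem R h (l := l) (d := l.length + 1)
        (by omega)))
      simp only [List.length_cons]
      omega
    · have h1 : h z * (h x * pwf h l - (sg2 (par x) (parL par l)) • (pwf h l * h x)) ∈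
          FF R h (1 + (l.length + 1)) := by
        refine FF_mul R h (a := 1) ?_ ih
        have := FF_mem R h (l := [z]) (d := 2) (by simp)
        simpa [pwf] using this
      have h2 := zsmul_mem h1 (sg2 (par x) (par z))
      refine FF_mono R h ?_ h2
      simp only [List.length_cons]
      omega

theorem trace_abs (h2 : (2 : F) ≠ 0) (par : Z → Bool) (σ : A) (h : Z → A) (hss : σ * σ = 1)
    (hs : ∀ z, σ * h z = (sg2 true (par z)) • (h z * σ))
    (hc : ∀ x y, h x * h y - (sg2 (par x) (par y)) • (h y * h x) ∈ FF R h 2)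
    (φ : R →+* F) (f : A →+ F) (hf : ∀ (r : R) a, f (r • a) = φ r * f a)
    (htr : ∀ a b, f (a * b) = f (b * a)) (π : A →+* A) (hπ : ∀ a, f (π a) = f a)
    (hπσ : π σ = -σ) (hπh : ∀ z, π (h z) = h z)
    (h0 : ∀ l : List Z, (∀ z ∈ l, par z = false) → f (pwf h l) = 0)
    (hw : ∀ a : A, a ∈ Submodule.span R (Set.range (pwf (Sum.elim (fun _ : Unit => σ) h))))
    (a : A) : f a = 0 := by
  have h2' : ∀ c : F, c = -c → c = 0 := by
    intro c hc
    have : (2 : F) * c = 0 := by
      rw [two_mul]
      nth_rewrite 1 [hc]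
      rw [neg_add_cancel]
    exact (mul_eq_zero.1 this).resolve_left h2
  have hπw : ∀ l, π (pwf h l) = pwf h l := by
    intro l
    induction l with
    | nil => rw [pwf_nil, map_one]
    | cons z l ih => rw [pwf_cons, map_mul, hπh, ih]
  -- words with the parity operator
  have hσ0 : ∀ l, f (σ * pwf h l) = 0 := by
    intro l
    apply h2'
    conv_lhs => rw [← hπ]
    rw [map_mul, hπσ, hπw, neg_mul, map_neg]
  -- spans
  have hFF : ∀ d, (∀ l : List Z, l.length < d → f (pwf h l) = 0) → ∀ u ∈ FF R h d, f u = 0 := by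
    intro d hd u hu
    induction hu using Submodule.span_induction with
    | mem u hu =>
      obtain ⟨l, hl, rfl⟩ := hu
      exact hd l hl
    | zero => rw [map_zero]
    | add a b _ _ ha hb => rw [map_add, ha, hb, add_zero]
    | smul c a _ ha => rw [hf, ha, mul_zero]
  -- words
  have hword : ∀ (d : ℕ) (l : List Z), l.length < d → f (pwf h l) = 0 := by
    intro d
    induction d with
    | zero => intro l hl; omega
    | succ d ih =>
      intro l hl
      by_cases hodd : parL par l = true
      · apply h2'
        have e1 : pwf h l = σ * (σ * pwf h l) := by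
          rw [← mul_assoc, hss, one_mul]
        conv_lhs => rw [e1, sig_word hs, hodd]
        have e3 : sg2 true true = -1 := by simp [sg2]
        rw [e3, neg_smul, one_smul, mul_neg, map_neg, htr, mul_assoc, hss, mul_one]
      · by_cases hall : ∀ z ∈ l, par z = false
        · exact h0 l hall
        · push Not at hall
          obtain ⟨y, hy, hyp⟩ := hall
          obtain ⟨l1, l2, rfl⟩ := List.append_of_mem hy
          have hyp' : par y = true := by
            cases h3 : par y
            · exact absurd h3 hyp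
            · rfl
          have e1 : f (pwf h (l1 ++ y :: l2)) = f (h y * pwf h (l2 ++ l1)) := by
            rw [pwf_append, htr, pwf_cons, pwf_append, mul_assoc]
          have hp : parL par (l2 ++ l1) = true := by
            rw [parL_append, parL_cons, hyp'] at hodd
            rw [parL_append]
            revert hodd
            cases parL par l1 <;> cases parL par l2 <;> simp
          have h4 := swap_word hc y (l2 ++ l1)
          have hlen : (l2 ++ l1).length + 1 ≤ d := by
            simp only [List.length_append, List.length_cons] at hl ⊢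
            omega
          have h5 := hFF d (fun l hl => ih l hl) _ (FF_mono R h hlen h4)
          rw [e1]
          apply h2'
          have e3 : sg2 (par y) (parL par (l2 ++ l1)) = -1 := by
            rw [hyp', hp]
            simp [sg2]
          rw [e3, map_sub, neg_smul, one_smul, map_neg, sub_neg_eq_add] at h5
          rw [htr (pwf h (l2 ++ l1)) (h y)] at h5
          exact eq_neg_of_add_eq_zero_left h5
  -- everything is a combination of words without and with one parity operator
  have hdec : ∀ l : List (Unit ⊕ Z), ∃ (c : ℤ) (b : Bool) (l' : List Z),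
      pwf (Sum.elim (fun _ : Unit => σ) h) l = c • ((if b then σ else 1) * pwf h l') := by
    intro l
    induction l with
    | nil => exact ⟨1, false, [], by simp [pwf_nil]⟩
    | cons x l ih =>
      obtain ⟨c, b, l', e⟩ := ih
      rw [pwf_cons, e]
      rcases x with x | z
      · refine ⟨c, !b, l', ?_⟩
        cases b
        · simp only [Sum.elim_inl, Bool.false_eq_true, if_false, Bool.not_false, if_true, one_mul]
          rw [mul_smul_comm]
        · simp only [Sum.elim_inl, if_true, Bool.not_true, Bool.false_eq_true, if_false, one_mul]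
          rw [mul_smul_comm, ← mul_assoc, hss, one_mul]
      · cases b
        · refine ⟨c, false, z :: l', ?_⟩
          simp only [Sum.elim_inr, Bool.false_eq_true, if_false, one_mul, pwf_cons]
          rw [mul_smul_comm]
        · refine ⟨c * sg2 true (par z), true, z :: l', ?_⟩
          simp only [Sum.elim_inr, if_true, pwf_cons]
          have h6 := hs z
          have h7 : h z * σ = (sg2 true (par z)) • (σ * h z) := by
            rw [h6, smul_smul]
            cases par z <;> simp [sg2]
          rw [mul_smul_comm, ← mul_assoc (h z), h7, smul_mul_assoc, smul_smul, mul_assoc]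
  have ha := hw a
  induction ha using Submodule.span_induction with
  | mem u hu =>
    obtain ⟨l, rfl⟩ := hu
    obtain ⟨c, b, l', e⟩ := hdec l
    rw [e, map_zsmul]
    cases b
    · simp only [Bool.false_eq_true, if_false, one_mul]
      rw [hword (l'.length + 1) l' (by omega), smul_zero]
    · simp only [if_true]
      rw [hσ0, smul_zero]
  | zero => rw [map_zero]
  | add a b _ _ ha hb => rw [map_add, ha, hb, add_zero]
  | smul c a _ ha => rw [hf, ha, mul_zero]

end abs

theorem smul_sg {S A : Type*} [CommRing S] [Ring A] [Algebra S A] {e : S} {c : ℤ} (h : e = c)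
    (a : A) : e • a = c • a := by
  rw [h, Int.cast_smul_eq_zsmul]

/-- Traces of graded modules are determined on the even part. -/
theorem trace_ext {k L₀ L₁ : Type*} [Field k] [AddCommGroup L₀] [Module k L₀] [AddCommGroup L₁]
    [Module k L₁] {m n : Type} [Fintype m] [Fintype n] [DecidableEq m] [DecidableEq n]
    (g : LieSuper k L₀ L₁) (b₀ : Basis m k L₀) (b₁ : Basis n k L₁) (p : ℕ) (P : m → L₀)
    {F : Type*} [Field F] (h2 : (2 : F) ≠ 0) (φ : MvPolynomial m k →+* F)
    (f : EU (PG g b₀ b₁ p P) →+ F) (hf : ∀ (r : MvPolynomial m k) a, f (r • a) = φ r * f a)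
    (htr : ∀ a b, f (a * b) = f (b * a)) (hπ : ∀ a, f (piE g b₀ b₁ p P a) = f a)
    (h0 : ∀ a, f (kap g b₀ b₁ p P a) = 0) (a : EU (PG g b₀ b₁ p P)) : f a = 0 := by
  have hr := gE_rel (PG g b₀ b₁ p P)
  have hss : gE (PG g b₀ b₁ p P) (Sum.inl ()) * gE (PG g b₀ b₁ p P) (Sum.inl ()) = 1 := by
    have h3 := hr.pow (Sum.inl ())
    have e2 : ∀ z, (PG g b₀ b₁ p P).Dc (Sum.inl ()) z = 0 := by
      rintro (z | z) <;> rfl
    have e4 : (PG g b₀ b₁ p P).n (Sum.inl ()) = 2 := rfl
    have e3 : (PG g b₀ b₁ p P).D0 (Sum.inl ()) = 1 := rfl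
    simp only [e2, e3, e4, map_zero, zero_smul, Finset.sum_const_zero, zero_add, map_one,
      one_smul] at h3
    rw [← pow_two]
    exact h3
  have hs : ∀ z : m ⊕ n, gE (PG g b₀ b₁ p P) (Sum.inl ()) * gE (PG g b₀ b₁ p P) (Sum.inr z) =
      (sg2 true (parZ m n z)) • (gE (PG g b₀ b₁ p P) (Sum.inr z) *
        gE (PG g b₀ b₁ p P) (Sum.inl ())) := by
    intro z
    have h3 := hr.comm (Sum.inl ()) (Sum.inr z)
    have e2 : ∀ w, (PG g b₀ b₁ p P).C (Sum.inl ()) (Sum.inr z) w = 0 := by
      rintro (w | w) <;> rfl
    have e3 : (PG g b₀ b₁ p P).C0 (Sum.inl ()) (Sum.inr z) = 0 := rfl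
    simp only [e2, e3, map_zero, zero_smul, Finset.sum_const_zero, add_zero] at h3
    rw [h3]
    refine smul_sg ?_ _
    rcases z with z | z <;> simp [PG, odl, parZ, sg2]
  have hc : ∀ x y : m ⊕ n, gE (PG g b₀ b₁ p P) (Sum.inr x) * gE (PG g b₀ b₁ p P) (Sum.inr y) -
      (sg2 (parZ m n x) (parZ m n y)) • (gE (PG g b₀ b₁ p P) (Sum.inr y) *
        gE (PG g b₀ b₁ p P) (Sum.inr x)) ∈
      FF (MvPolynomial m k) (fun z : m ⊕ n => gE (PG g b₀ b₁ p P) (Sum.inr z)) 2 := by
    intro x y
    have h3 := hr.comm (Sum.inr x) (Sum.inr y)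
    rw [Fintype.sum_sum_type] at h3
    have e3 : ∀ z, (PG g b₀ b₁ p P).C (Sum.inr x) (Sum.inr y) (Sum.inl z) = 0 := fun z => rfl
    have e2 : (PG g b₀ b₁ p P).C0 (Sum.inr x) (Sum.inr y) = 0 := by
      rcases x with x | x <;> rcases y with y | y <;> rfl
    simp only [e3, e2, map_zero, zero_smul, Finset.sum_const_zero, zero_add, add_zero] at h3
    have e4 : (RingHom.id (MvPolynomial m k)) ((PG g b₀ b₁ p P).E (Sum.inr x) (Sum.inr y)) •
        (gE (PG g b₀ b₁ p P) (Sum.inr y) * gE (PG g b₀ b₁ p P) (Sum.inr x)) =
        (sg2 (parZ m n x) (parZ m n y)) • (gE (PG g b₀ b₁ p P) (Sum.inr y) *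
        gE (PG g b₀ b₁ p P) (Sum.inr x)) := by
      refine smul_sg (S := MvPolynomial m k) (A := EU (PG g b₀ b₁ p P)) ?_ _
      rcases x with x | x <;> rcases y with y | y <;> simp [PG, odl, parZ, sg2]
    rw [h3, e4, add_sub_cancel_left]
    refine Submodule.sum_mem _ fun z _ => Submodule.smul_mem _ _ ?_
    have := FF_mem (MvPolynomial m k) (fun z : m ⊕ n => gE (PG g b₀ b₁ p P) (Sum.inr z))
      (l := [z]) (d := 2) (by simp)
    simpa [pwf] using this
  refine trace_abs (R := MvPolynomial m k) h2 (parZ m n) (gE (PG g b₀ b₁ p P) (Sum.inl ()))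
    (fun z : m ⊕ n => gE (PG g b₀ b₁ p P) (Sum.inr z)) hss hs hc φ f hf htr
    (piE g b₀ b₁ p P) hπ ?_ ?_ ?_ ?_ a
  · exact liftE_gE _ _
  · intro z
    exact liftE_gE _ _
  · intro l hl
    have h5 : ∃ l' : List m, l = l'.map Sum.inl := by
      clear hs hc
      induction l with
      | nil => exact ⟨[], rfl⟩
      | cons z l ih =>
        obtain ⟨l', rfl⟩ := ih fun w hw => hl w (List.mem_cons_of_mem _ hw)
        have h6 := hl z (List.mem_cons_self ..)
        rcases z with z | z
        · exact ⟨z :: l', rfl⟩
        · simp [parZ] at h6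
    obtain ⟨l', rfl⟩ := h5
    have h7 : pwf (fun z : m ⊕ n => gE (PG g b₀ b₁ p P) (Sum.inr z)) (l'.map Sum.inl) =
        kap g b₀ b₁ p P (pwf (gE (P0 g b₀ p P)) l') := by
      unfold kap
      rw [liftE_pwf]
      simp [pwf, Function.comp_def]
    rw [h7]
    exact h0 _
  · intro a
    have h8 := gE_span (PG g b₀ b₁ p P) a
    have h9 : (Sum.elim (fun _ : Unit => gE (PG g b₀ b₁ p P) (Sum.inl ()))
        (fun z : m ⊕ n => gE (PG g b₀ b₁ p P) (Sum.inr z))) = gE (PG g b₀ b₁ p P) := by
      funext x
      rcases x with x | x <;> rfl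
    rw [h9]
    exact h8

end Pool.Agent.Helper84.SKF
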